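import Pool.Agent.helper17.EXC.Spec

/-!
# Row ACT: the action of `x_α(t)` on the basis
-/

set_option autoImplicit false

open Finset

namespace Pool.Agent.EXC

theorem ACT_ne {n : ℕ} (C : Matrix (Fin n) (Fin n) ℤ) {α β : Fin n → ℤ} (hα : ip C α α = 2) (h : -1 ≤ ip C α β) : β ≠ -α := by
  rintro rfl
  rw [ip_neg_right, hα] at h
  omega

theorem ACT_H {n : ℕ} (C : Matrix (Fin n) (Fin n) ℤ) [IsC C] {F : Type} [Field F] {α : Fin n → ℤ} (t : F) (hα : ip C α α = 2)
    (h : Fin n → F) : xe C (E C α) t (h, 0) = ((h, 0) - (t * ev C α h) • E C α : Lm C F) := by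
  unfold xe
  rw [br_E_H C hα, fm_E_H C hα, mul_zero, zero_smul, add_zero, smul_smul, mul_neg, neg_smul, ← sub_eq_add_neg]

theorem ACT : ACT_stmt := by
  intro n C _ F _ α t hα
  refine ⟨?_, ?_, ?_, fun h => ACT_H C t hα h, ?_⟩
  · intro β hβ h
    have hne := ACT_ne C hα (by omega : -1 ≤ ip C α β)
    have h0 : ip C (α + β) (α + β) ≠ 2 := by
      intro h1
      have := (add_root_iff hα hβ).1 h1
      omega
    unfold xe
    rw [br_E_E C hα hβ, fm_E_E C hα hβ, if_neg hne, if_neg hne, E_eq_zero C h0]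
    simp
  · intro β hβ h
    have hne := ACT_ne C hα (by omega : -1 ≤ ip C α β)
    unfold xe
    rw [br_E_E C hα hβ, fm_E_E C hα hβ, if_neg hne, if_neg hne, mul_zero, zero_smul, add_zero, sub_zero, smul_smul]
  · have h0 : ip C (α + -α) (α + -α) ≠ 2 := by
      rw [add_neg_cancel]
      simp
    unfold xe
    rw [br_E_E C hα (neg_root C hα), fm_E_E C hα (neg_root C hα), if_pos rfl, if_pos rfl, E_eq_zero C h0, smul_zero, zero_sub, mul_one,
      smul_neg, ← sub_eq_add_neg]
  · intro β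
    have h1 := ACT_H C t hα (fun i => (β i : F))
    rw [ev_coroot] at h1
    exact h1

end Pool.Agent.EXC
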