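import Pool.Agent.helper17.EXC.Spec

/-!
# Row EIG: the eigenvector of a product of three (two) matrices `rb i A`
-/

set_option autoImplicit false

open Finset

namespace Pool.Agent.EXC

theorem EIG_b0 : bk 0 = 0 := rfl
theorem EIG_b1 : bk 1 = 0 := rfl
theorem EIG_b2 : bk 2 = 1 := rfl
theorem EIG_b3 : bk 3 = 1 := rfl
theorem EIG_b4 : bk 4 = 2 := rfl
theorem EIG_b5 : bk 5 = 2 := rfl
theorem EIG_p0 : pl 0 = 0 := rfl
theorem EIG_p1 : pl 1 = 1 := rfl
theorem EIG_p2 : pl 2 = 0 := rfl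
theorem EIG_p3 : pl 3 = 1 := rfl
theorem EIG_p4 : pl 4 = 0 := rfl
theorem EIG_p5 : pl 5 = 1 := rfl

section K
variable {K : Type} [Field K]

/-- a vector in blocks of length 2 -/
def EIG_bl (u0 u1 u2 : Fin 2 → K) : Fin 6 → K := fun p => (![u0, u1, u2] : Fin 3 → Fin 2 → K) (bk p) (pl p)

theorem EIG_sum6 (f : Fin 6 → K) : ∑ q, f q = f 0 + f 1 + (f 2 + f 3) + (f 4 + f 5) := by
  rw [Fin.sum_univ_six]
  ring

theorem EIG_mul (i : Fin 3) (A : Fin 3 → Matrix (Fin 2) (Fin 2) K) (u0 u1 u2 : Fin 2 → K) (p : Fin 6) :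
    Matrix.mulVec (rb i A) (EIG_bl u0 u1 u2) p = EIG_bl u0 u1 u2 p +
      if bk p = i then (Matrix.mulVec (A 0) u0 + Matrix.mulVec (A 1) u1 + Matrix.mulVec (A 2) u2) (pl p) else 0 := by
  unfold rb
  rw [Matrix.add_mulVec, Matrix.one_mulVec, Pi.add_apply]
  congr 1
  unfold Matrix.mulVec dotProduct
  rw [EIG_sum6]
  simp only [Matrix.of_apply, EIG_bl, EIG_b0, EIG_b1, EIG_b2, EIG_b3, EIG_b4, EIG_b5, EIG_p0, EIG_p1, EIG_p2, EIG_p3, EIG_p4, EIG_p5]
  by_cases h : bk p = i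
  · rw [if_pos h, if_pos h, if_pos h, if_pos h, if_pos h, if_pos h, if_pos h]
    simp only [Pi.add_apply, Fin.sum_univ_two]
    rfl
  · rw [if_neg h, if_neg h, if_neg h, if_neg h, if_neg h, if_neg h, if_neg h]
    simp

theorem EIG_bl_ext {u0 u1 u2 : Fin 2 → K} {v : Fin 6 → K} (h0 : ∀ p, bk p = 0 → v p = u0 (pl p)) (h1 : ∀ p, bk p = 1 → v p = u1 (pl p))
    (h2 : ∀ p, bk p = 2 → v p = u2 (pl p)) : v = EIG_bl u0 u1 u2 := by
  funext p
  unfold EIG_bl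
  have h : ∀ b : Fin 3, b = 0 ∨ b = 1 ∨ b = 2 := by decide
  rcases h (bk p) with e | e | e
  · rw [e, h0 p e]; rfl
  · rw [e, h1 p e]; rfl
  · rw [e, h2 p e]; rfl

theorem EIG_bl0 (u0 u1 u2 : Fin 2 → K) (p : Fin 6) (h : bk p = 0) : EIG_bl u0 u1 u2 p = u0 (pl p) := by
  unfold EIG_bl; rw [h]; rfl

theorem EIG_bl1 (u0 u1 u2 : Fin 2 → K) (p : Fin 6) (h : bk p = 1) : EIG_bl u0 u1 u2 p = u1 (pl p) := by
  unfold EIG_bl; rw [h]; rfl

theorem EIG_bl2 (u0 u1 u2 : Fin 2 → K) (p : Fin 6) (h : bk p = 2) : EIG_bl u0 u1 u2 p = u2 (pl p) := by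
  unfold EIG_bl; rw [h]; rfl

theorem EIG_mul0 (A : Fin 3 → Matrix (Fin 2) (Fin 2) K) (u0 u1 u2 : Fin 2 → K) : Matrix.mulVec (rb 0 A) (EIG_bl u0 u1 u2) =
    EIG_bl (u0 + (Matrix.mulVec (A 0) u0 + Matrix.mulVec (A 1) u1 + Matrix.mulVec (A 2) u2)) u1 u2 := by
  refine EIG_bl_ext (fun p h => ?_) (fun p h => ?_) (fun p h => ?_)
  · rw [EIG_mul, if_pos h, EIG_bl0 _ _ _ _ h]; rfl
  · rw [EIG_mul, if_neg (by rw [h]; decide), EIG_bl1 _ _ _ _ h, add_zero]
  · rw [EIG_mul, if_neg (by rw [h]; decide), EIG_bl2 _ _ _ _ h, add_zero]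

theorem EIG_mul1 (A : Fin 3 → Matrix (Fin 2) (Fin 2) K) (u0 u1 u2 : Fin 2 → K) : Matrix.mulVec (rb 1 A) (EIG_bl u0 u1 u2) =
    EIG_bl u0 (u1 + (Matrix.mulVec (A 0) u0 + Matrix.mulVec (A 1) u1 + Matrix.mulVec (A 2) u2)) u2 := by
  refine EIG_bl_ext (fun p h => ?_) (fun p h => ?_) (fun p h => ?_)
  · rw [EIG_mul, if_neg (by rw [h]; decide), EIG_bl0 _ _ _ _ h, add_zero]
  · rw [EIG_mul, if_pos h, EIG_bl1 _ _ _ _ h]; rfl
  · rw [EIG_mul, if_neg (by rw [h]; decide), EIG_bl2 _ _ _ _ h, add_zero]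

theorem EIG_mul2 (A : Fin 3 → Matrix (Fin 2) (Fin 2) K) (u0 u1 u2 : Fin 2 → K) : Matrix.mulVec (rb 2 A) (EIG_bl u0 u1 u2) =
    EIG_bl u0 u1 (u2 + (Matrix.mulVec (A 0) u0 + Matrix.mulVec (A 1) u1 + Matrix.mulVec (A 2) u2)) := by
  refine EIG_bl_ext (fun p h => ?_) (fun p h => ?_) (fun p h => ?_)
  · rw [EIG_mul, if_neg (by rw [h]; decide), EIG_bl0 _ _ _ _ h, add_zero]
  · rw [EIG_mul, if_neg (by rw [h]; decide), EIG_bl1 _ _ _ _ h, add_zero]
  · rw [EIG_mul, if_pos h, EIG_bl2 _ _ _ _ h]; rfl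

theorem EIG_smul (c : K) (u0 u1 u2 : Fin 2 → K) : c • EIG_bl u0 u1 u2 = EIG_bl (c • u0) (c • u1) (c • u2) := by
  refine EIG_bl_ext (fun p h => ?_) (fun p h => ?_) (fun p h => ?_)
  · rw [Pi.smul_apply, EIG_bl0 _ _ _ _ h]; rfl
  · rw [Pi.smul_apply, EIG_bl1 _ _ _ _ h]; rfl
  · rw [Pi.smul_apply, EIG_bl2 _ _ _ _ h]; rfl

theorem EIG_ne {u0 u1 u2 : Fin 2 → K} (h : u1 ≠ 0 ∨ u2 ≠ 0) : EIG_bl u0 u1 u2 ≠ 0 := by
  intro h0
  rcases h with h | h
  · apply h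
    funext i
    have e : ∀ i : Fin 2, ∃ p : Fin 6, bk p = 1 ∧ pl p = i := by decide
    obtain ⟨p, hp, hi⟩ := e i
    have := congrFun h0 p
    rw [EIG_bl1 _ _ _ _ hp, hi] at this
    exact this
  · apply h
    funext i
    have e : ∀ i : Fin 2, ∃ p : Fin 6, bk p = 2 ∧ pl p = i := by decide
    obtain ⟨p, hp, hi⟩ := e i
    have := congrFun h0 p
    rw [EIG_bl2 _ _ _ _ hp, hi] at this
    exact this

theorem EIG_pow {Z : Matrix (Fin 6) (Fin 6) K} {v : Fin 6 → K} {ζ : K} (h : Matrix.mulVec Z v = ζ • v) (m : ℕ) :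
    Matrix.mulVec (Z ^ m) v = ζ ^ m • v := by
  induction m with
  | zero => simp
  | succ m ih => rw [pow_succ, ← Matrix.mulVec_mulVec, h, Matrix.mulVec_smul, ih, smul_smul, pow_succ, mul_comm]

/-- 2 × 2 matrices of determinant 1 -/
theorem EIG_two (E : Matrix (Fin 2) (Fin 2) K) (hE : E.det = 1) (ζ : K) (hζ : ζ ≠ 0) (w y : Fin 2 → K)
    (h : (ζ + ζ⁻¹ - E.trace) • w = y) :
    Matrix.mulVec E (ζ • w - Matrix.mulVec E.adjugate w) + ζ • y = ζ • (ζ • w - Matrix.mulVec E.adjugate w) := by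
  have h1 : E 0 0 * E 1 1 - E 0 1 * E 1 0 = 1 := by rw [← Matrix.det_fin_two]; exact hE
  have hz : ζ * ζ⁻¹ = 1 := mul_inv_cancel₀ hζ
  subst h
  rw [Matrix.adjugate_fin_two, Matrix.trace_fin_two]
  funext i
  fin_cases i
  · simp [dotProduct, Fin.sum_univ_two, Matrix.vecHead, Matrix.vecTail]
    linear_combination (-(w 0)) * h1 + w 0 * hz
  · simp [dotProduct, Fin.sum_univ_two, Matrix.vecHead, Matrix.vecTail]
    linear_combination (-(w 1)) * h1 + w 1 * hz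

end K

section FK
variable {F K : Type} [Field F] [Field K] [Algebra F K]

theorem EIG_map (i : Fin 3) (A : Fin 3 → Matrix (Fin 2) (Fin 2) F) :
    (algebraMap F K).mapMatrix (rb i A) = rb i fun j => (algebraMap F K).mapMatrix (A j) := by
  ext p q
  simp only [RingHom.mapMatrix_apply, Matrix.map_apply, rb, Matrix.add_apply, Matrix.of_apply, map_add]
  congr 1
  · rw [Matrix.one_apply, Matrix.one_apply]
    split_ifs <;> simp
  · split_ifs <;> simp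

theorem EIG_fin {Z : Matrix (Fin 6) (Fin 6) F} {v : Fin 6 → K} {ζ : K} (hv : v ≠ 0)
    (h : Matrix.mulVec ((algebraMap F K).mapMatrix Z) v = ζ • v) (m : ℕ) (c : F) (hc : Z ^ m = c • (1 : Matrix (Fin 6) (Fin 6) F)) :
    ζ ^ m = algebraMap F K c := by
  have h1 := EIG_pow h m
  rw [← map_pow, hc] at h1
  have h2 : (algebraMap F K).mapMatrix (c • (1 : Matrix (Fin 6) (Fin 6) F)) = algebraMap F K c • (1 : Matrix (Fin 6) (Fin 6) K) := by
    ext p q
    simp only [RingHom.mapMatrix_apply, Matrix.map_apply, Matrix.smul_apply, smul_eq_mul, map_mul]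
    rw [Matrix.one_apply, Matrix.one_apply]
    split_ifs <;> simp
  rw [h2, Matrix.smul_mulVec, Matrix.one_mulVec] at h1
  obtain ⟨p, hp⟩ := Function.ne_iff.1 hv
  have h3 := congrFun h1 p
  simp only [Pi.smul_apply, smul_eq_mul] at h3
  exact (mul_right_cancel₀ hp h3).symm

end FK

theorem EIG : EIG_stmt := by
  intro F K _ _ _ E N2 N3 ζ w w' hdet hζ hw
  set φ := algebraMap F K with hφ
  set E' := φ.mapMatrix E with hE'
  have hdet' : E'.det = 1 := by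
    rw [hE', ← RingHom.map_det, hdet, map_one]
  have htr : φ E.trace = E'.trace := by
    rw [hE', Matrix.trace_fin_two, Matrix.trace_fin_two, map_add]
    rfl
  have hadj : φ.mapMatrix E.adjugate = E'.adjugate := by
    rw [hE', RingHom.map_adjugate]
  refine ⟨?_, ?_⟩
  · intro h1 h2 m c hc
    rw [htr] at h2
    have h1' : w' = ζ • w - Matrix.mulVec E' w := h1
    refine EIG_fin (v := EIG_bl (ζ • w' - Matrix.mulVec E'.adjugate w') w' w) (EIG_ne (Or.inr hw)) ?_ m c hc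
    rw [map_mul, map_mul, EIG_map, EIG_map, EIG_map, ← Matrix.mulVec_mulVec, ← Matrix.mulVec_mulVec, EIG_mul2]
    have e2 : w + (Matrix.mulVec ((algebraMap F K).mapMatrix ((![0, 1, E - 1] : Fin 3 → Matrix (Fin 2) (Fin 2) F) 0)) (ζ • w' - Matrix.mulVec E'.adjugate w') +
        Matrix.mulVec ((algebraMap F K).mapMatrix ((![0, 1, E - 1] : Fin 3 → Matrix (Fin 2) (Fin 2) F) 1)) w' +
        Matrix.mulVec ((algebraMap F K).mapMatrix ((![0, 1, E - 1] : Fin 3 → Matrix (Fin 2) (Fin 2) F) 2)) w) = ζ • w := by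
      have f0 : (algebraMap F K).mapMatrix ((![0, 1, E - 1] : Fin 3 → Matrix (Fin 2) (Fin 2) F) 0) = 0 := map_zero _
      have f1 : (algebraMap F K).mapMatrix ((![0, 1, E - 1] : Fin 3 → Matrix (Fin 2) (Fin 2) F) 1) = 1 := map_one _
      have f2 : (algebraMap F K).mapMatrix ((![0, 1, E - 1] : Fin 3 → Matrix (Fin 2) (Fin 2) F) 2) = E' - 1 := by
        rw [hE', ← map_one (algebraMap F K).mapMatrix, ← map_sub]
        rfl
      rw [f0, f1, f2, Matrix.zero_mulVec, Matrix.one_mulVec, Matrix.sub_mulVec, Matrix.one_mulVec, h1']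
      abel
    rw [e2, EIG_mul1]
    have e1 : w' + (Matrix.mulVec ((algebraMap F K).mapMatrix ((![1, E.adjugate - 1, 0] : Fin 3 → Matrix (Fin 2) (Fin 2) F) 0)) (ζ • w' - Matrix.mulVec E'.adjugate w') +
        Matrix.mulVec ((algebraMap F K).mapMatrix ((![1, E.adjugate - 1, 0] : Fin 3 → Matrix (Fin 2) (Fin 2) F) 1)) w' +
        Matrix.mulVec ((algebraMap F K).mapMatrix ((![1, E.adjugate - 1, 0] : Fin 3 → Matrix (Fin 2) (Fin 2) F) 2)) (ζ • w)) = ζ • w' := by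
      have f0 : (algebraMap F K).mapMatrix ((![1, E.adjugate - 1, 0] : Fin 3 → Matrix (Fin 2) (Fin 2) F) 0) = 1 := map_one _
      have f2 : (algebraMap F K).mapMatrix ((![1, E.adjugate - 1, 0] : Fin 3 → Matrix (Fin 2) (Fin 2) F) 2) = 0 := map_zero _
      have f1 : (algebraMap F K).mapMatrix ((![1, E.adjugate - 1, 0] : Fin 3 → Matrix (Fin 2) (Fin 2) F) 1) = E'.adjugate - 1 := by
        rw [← hadj, ← map_one (algebraMap F K).mapMatrix, ← map_sub]
        rfl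
      rw [f0, f1, f2, Matrix.zero_mulVec, Matrix.one_mulVec, Matrix.sub_mulVec, Matrix.one_mulVec]
      abel
    rw [e1, EIG_mul0, EIG_smul]
    have f0 : (algebraMap F K).mapMatrix ((![E - 1, N2, N3] : Fin 3 → Matrix (Fin 2) (Fin 2) F) 0) = E' - 1 := by
      rw [hE', ← map_one (algebraMap F K).mapMatrix, ← map_sub]
      rfl
    have f1 : (algebraMap F K).mapMatrix ((![E - 1, N2, N3] : Fin 3 → Matrix (Fin 2) (Fin 2) F) 1) = N2.map φ := rfl
    have f2 : (algebraMap F K).mapMatrix ((![E - 1, N2, N3] : Fin 3 → Matrix (Fin 2) (Fin 2) F) 2) = N3.map φ := rfl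
    rw [f0, f1, f2]
    have h3 := EIG_two E' hdet' ζ hζ w' _ h2
    congr 1
    rw [← h3, Matrix.sub_mulVec, Matrix.one_mulVec, Matrix.mulVec_smul, Matrix.mulVec_smul, smul_add]
    abel
  · intro h2 m c hc
    rw [htr] at h2
    have hmul : ∀ u2 : Fin 2 → K, ∀ (u0 u1 : Fin 2 → K), Matrix.mulVec ((algebraMap F K).mapMatrix (rb 0 ![E - 1, N2, 0] * rb 1 ![1, E.adjugate - 1, 0]))
        (EIG_bl u0 u1 u2) = EIG_bl (Matrix.mulVec E' u0 + Matrix.mulVec (N2.map φ) (u0 + Matrix.mulVec E'.adjugate u1)) (u0 + Matrix.mulVec E'.adjugate u1) u2 := by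
      intro u2 u0 u1
      rw [map_mul, EIG_map, EIG_map, ← Matrix.mulVec_mulVec, EIG_mul1]
      have f0 : (algebraMap F K).mapMatrix ((![1, E.adjugate - 1, 0] : Fin 3 → Matrix (Fin 2) (Fin 2) F) 0) = 1 := map_one _
      have f2 : (algebraMap F K).mapMatrix ((![1, E.adjugate - 1, 0] : Fin 3 → Matrix (Fin 2) (Fin 2) F) 2) = 0 := map_zero _
      have f1 : (algebraMap F K).mapMatrix ((![1, E.adjugate - 1, 0] : Fin 3 → Matrix (Fin 2) (Fin 2) F) 1) = E'.adjugate - 1 := by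
        rw [← hadj, ← map_one (algebraMap F K).mapMatrix, ← map_sub]
        rfl
      rw [f0, f1, f2, Matrix.zero_mulVec, Matrix.one_mulVec, Matrix.sub_mulVec, Matrix.one_mulVec]
      have e1 : u1 + (u0 + (Matrix.mulVec E'.adjugate u1 - u1) + 0) = u0 + Matrix.mulVec E'.adjugate u1 := by abel
      rw [e1, EIG_mul0]
      have g0 : (algebraMap F K).mapMatrix ((![E - 1, N2, 0] : Fin 3 → Matrix (Fin 2) (Fin 2) F) 0) = E' - 1 := by
        rw [hE', ← map_one (algebraMap F K).mapMatrix, ← map_sub]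
        rfl
      have g1 : (algebraMap F K).mapMatrix ((![E - 1, N2, 0] : Fin 3 → Matrix (Fin 2) (Fin 2) F) 1) = N2.map φ := rfl
      have g2 : (algebraMap F K).mapMatrix ((![E - 1, N2, 0] : Fin 3 → Matrix (Fin 2) (Fin 2) F) 2) = 0 := map_zero _
      rw [g0, g1, g2, Matrix.zero_mulVec, Matrix.sub_mulVec, Matrix.one_mulVec]
      congr 1
      abel
    have h3 := EIG_two E' hdet' ζ hζ w _ h2
    have c1 : ζ ^ m = algebraMap F K c := by
      refine EIG_fin (v := EIG_bl (ζ • w - Matrix.mulVec E'.adjugate w) w 0) (EIG_ne (Or.inl hw)) ?_ m c hc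
      rw [hmul, EIG_smul, sub_add_cancel, smul_zero, ← h3, Matrix.mulVec_smul]
    have c2 : (1 : K) ^ m = algebraMap F K c := by
      refine EIG_fin (v := EIG_bl (0 : Fin 2 → K) 0 w) (EIG_ne (Or.inr hw)) ?_ m c hc
      rw [hmul, EIG_smul]
      simp
    rw [c1, ← c2, one_pow]

end Pool.Agent.EXC
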